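import Pool.Agent.H77.ST.CCM

/-!
# Choose's winning strategies in ideal cut and choose games can depend on the ideal

There is a sentence `φ` of the language of set theory which says (`IdealDependence E` is what `φ`
says in a structure `(N, E)`): there are a measurable cardinal `κ` and a `<κ`-closed ideal `J` on
`κ` containing the bounded sets such that, for all limit ordinals `γ` below `κ`, Choose has a
winning strategy in the game of length `γ` on `κ` with the ideal of bounded sets, but none in the
game with the ideal `J`. The sentence `φ` is consistent relative to ZFC with a measurable cardinal:

* every countable model of ZFC in which there is a measurable cardinal has a generic extension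
  which is a model of ZFC and satisfies `φ`;
* if there is a model of ZFC (of any size) in which there is a measurable cardinal, then there is
  a model of ZFC which satisfies `φ`.

The conditions of the forcing notion are pairs `(a, F)` of a set `a` of at most `κ` subsets of
`κ` and a set `F` of functions from subsets of `a` to `2` (more generally relations) with a system
of distinct representatives; the second component of a stronger condition must have, relative to
the weaker one, distinct representatives among the new members of the first component. The
forcing adds no functions on `κ`, so that the measure and all games stay the same, and it adds a
family of branches which generates the ideal `J` and catches every strategy.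
-/

namespace Pool.Agent.Results.MP_66b893_lc.Consistency

open ST ST.CC

/-- It is consistent, relative to a measurable cardinal, that the existence of a winning strategy
of Choose in the ideal cut and choose games on `κ` depends on the ideal. -/
theorem result :
    ∃ φ : Fml 0,
      (∀ (N : Type) (E : N → N → Prop), Sat E φ Fin.elim0 ↔ IdealDependence E) ∧
      (∀ (M : Type) (D : M → M → Prop), Countable M → ZFC D → (∃ k U : M, IsMeasure D k U) →
        ∃ (N : Type) (E : N → N → Prop) (i : M → N),
          ZFC E ∧ IsGenExt D E i ∧ Sat E φ Fin.elim0) ∧
      ∀ (M : Type) (D : M → M → Prop), ZFC D → (∃ k U : M, IsMeasure D k U) →
        ∃ (N : Type) (E : N → N → Prop), ZFC E ∧ Sat E φ Fin.elim0 :=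
  main

end Pool.Agent.Results.MP_66b893_lc.Consistency
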