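import Mathlib
import Pool.Agent.H40.Cut.Defs
import Pool.Agent.H40.Cut.Proof

set_option autoImplicit false

open Ordinal Cardinal Set Order

universe u

namespace Pool.Agent.Results.MP_66b893_lc.SquareDependence

open Pool.Agent.H40.Cut

/-- **Theorem.** Let `κ` be an uncountable regular cardinal, `U` a normal measure on `κ`, and
suppose that `□_{|α|}` holds for `U`-almost all `α < κ`. Then the ideal of bounded subsets of `κ`
and another proper `<κ`-closed ideal `J` on `κ` containing it behave differently: for all limit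
ordinals `γ < κ`, Choose has a winning strategy in `U(κ, bd_κ, γ)` but has no winning strategy
in `U(κ, J, γ)`. -/
theorem result (κ : Cardinal.{u}) (hκ : ℵ₀ < κ) (hreg : κ.IsRegular) (U : Ultrafilter (Pt κ))
    (hU : IsNormalMeasure κ U) (hsq : {α : Pt κ | Square α.1.card} ∈ U) :
    IsIdeal κ {X | Bd κ X} ∧ ∃ J, IsIdeal κ J ∧ ∀ γ : Ordinal.{u}, IsSuccLimit γ → γ < κ.ord →
      ChooseWins κ {X | Bd κ X} γ ∧ ¬ ChooseWins κ J γ :=
  main κ hκ hreg U hU hsq

end Pool.Agent.Results.MP_66b893_lc.SquareDependence
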